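import Mathlib
import Pool.Agent.X142.Chain
import Pool.Agent.X142.Walk1
import Pool.Agent.X142.Polymer

/-!
A reversible recurrent nearest-neighbour chain on a connected graph for which the directed polymer
has a positive `L²` critical value.
-/

open Finset MeasureTheory ProbabilityTheory
open scoped ENNReal

namespace Pool.Agent.Results.MP_6abe48_pr.ReversibleRecurrent

open X142.Chain X142.Walk1 X142.Polymer

/-- `P` is the transition matrix of an irreducible nearest-neighbour chain on the graph `G` with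
finitely many possible steps from each vertex. -/
structure IsNearestNeighbourChain {V : Type} (G : SimpleGraph V) (P : V → V → ℝ≥0∞) : Prop where
  sum_one : ∀ x, ∑' y, P x y = 1
  finite_steps : ∀ x, {y | P x y ≠ 0}.Finite
  nearest : ∀ x y, P x y ≠ 0 → G.Adj x y
  irreducible : ∀ x y, Relation.ReflTransGen (fun a b => P a b ≠ 0) x y

/-- The chain is reversible with respect to some positive finite weights. -/
def Reversible {V : Type} (P : V → V → ℝ≥0∞) : Prop :=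
  ∃ w : V → ℝ≥0∞, (∀ x, w x ≠ 0 ∧ w x ≠ ∞) ∧ ∀ x y, w x * P x y = w y * P y x

section example_chain

/-- Number of labels of the site `h` of `ℤ²`. -/
def lab (h : ℤ × ℤ) : ℕ := 2 ^ (h.1.natAbs + h.2.natAbs)

/-- Vertices: sites of `ℤ²` together with a label. -/
abbrev Vtx : Type := Σ h : ℤ × ℤ, Fin (lab h)

/-- The graph distance one relation of `ℤ²`. -/
def nbr (h k : ℤ × ℤ) : Prop := (h.1 - k.1).natAbs + (h.2 - k.2).natAbs = 1

instance (h k : ℤ × ℤ) : Decidable (nbr h k) := by unfold nbr; infer_instance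

lemma nbr_symm {h k : ℤ × ℤ} (hk : nbr h k) : nbr k h := by
  unfold nbr at *
  omega

lemma lab_pos (h : ℤ × ℤ) : 0 < lab h := by unfold lab; positivity

/-- The graph. -/
def graph : SimpleGraph Vtx where
  Adj x y := nbr x.1 y.1
  symm := ⟨fun _ _ h => nbr_symm h⟩
  loopless := ⟨fun x h => by unfold nbr at h; simp at h⟩

/-- The transition matrix: move to a neighbouring site and choose a uniform label there. -/
noncomputable def kern (x y : Vtx) : ℝ≥0∞ :=
  if nbr x.1 y.1 then 2⁻¹ * 2⁻¹ * ((lab y.1 : ℕ) : ℝ≥0∞)⁻¹ else 0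

lemma nbr_iff (h k : ℤ × ℤ) : nbr h k ↔
    k ∈ ({(h.1 + 1, h.2), (h.1 - 1, h.2), (h.1, h.2 + 1), (h.1, h.2 - 1)} : Finset (ℤ × ℤ)) := by
  unfold nbr
  simp only [mem_insert, mem_singleton, Prod.ext_iff]
  omega

lemma tsum_nbr (h : ℤ × ℤ) (F : ℤ × ℤ → ℝ≥0∞) :
    ∑' k, (if nbr h k then F k else 0) =
      F (h.1 + 1, h.2) + F (h.1 - 1, h.2) + F (h.1, h.2 + 1) + F (h.1, h.2 - 1) := by
  rw [tsum_eq_sum (s := {(h.1 + 1, h.2), (h.1 - 1, h.2), (h.1, h.2 + 1), (h.1, h.2 - 1)})]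
  · rw [Finset.sum_congr rfl (fun k hk => if_pos ((nbr_iff h k).mpr hk))]
    rw [sum_insert, sum_insert, sum_insert, sum_singleton]
    · ring
    · simp only [mem_singleton, Prod.ext_iff]
      omega
    · simp only [mem_insert, mem_singleton, Prod.ext_iff]
      omega
    · simp only [mem_insert, mem_singleton, Prod.ext_iff]
      omega
  · intro k hk
    rw [if_neg (fun h' => hk ((nbr_iff h k).mp h'))]

lemma lab_inv_mul (h : ℤ × ℤ) : ((lab h : ℕ) : ℝ≥0∞) * ((lab h : ℕ) : ℝ≥0∞)⁻¹ = 1 :=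
  ENNReal.mul_inv_cancel (by exact_mod_cast (lab_pos h).ne') (ENNReal.natCast_ne_top _)

/-- Sums over the vertices of functions of the site. -/
lemma tsum_site (F : ℤ × ℤ → ℝ≥0∞) : ∑' y : Vtx, F y.1 = ∑' h, (lab h : ℝ≥0∞) * F h := by
  rw [ENNReal.tsum_sigma']
  congr 1
  ext h
  simp

lemma tsum_kern (x : Vtx) (F : ℤ × ℤ → ℝ≥0∞) : ∑' y, kern x y * F y.1 =
    2⁻¹ * 2⁻¹ * (F (x.1.1 + 1, x.1.2) + F (x.1.1 - 1, x.1.2) + F (x.1.1, x.1.2 + 1) +
      F (x.1.1, x.1.2 - 1)) := by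
  have h1 : ∀ y : Vtx, kern x y * F y.1 = (fun k => (if nbr x.1 k then
      2⁻¹ * 2⁻¹ * ((lab k : ℕ) : ℝ≥0∞)⁻¹ else 0) * F k) y.1 := fun y => rfl
  simp only [h1]
  rw [tsum_site (fun k => (if nbr x.1 k then 2⁻¹ * 2⁻¹ * ((lab k : ℕ) : ℝ≥0∞)⁻¹ else 0) * F k)]
  have h2 : ∀ k, (lab k : ℝ≥0∞) * ((if nbr x.1 k then
      2⁻¹ * 2⁻¹ * ((lab k : ℕ) : ℝ≥0∞)⁻¹ else 0) * F k) =
      2⁻¹ * 2⁻¹ * (if nbr x.1 k then F k else 0) := by
    intro k
    split_ifs
    · calc (lab k : ℝ≥0∞) * (2⁻¹ * 2⁻¹ * ((lab k : ℕ) : ℝ≥0∞)⁻¹ * F k)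
          = ((lab k : ℝ≥0∞) * ((lab k : ℕ) : ℝ≥0∞)⁻¹) * (2⁻¹ * 2⁻¹ * F k) := by ring
        _ = _ := by rw [lab_inv_mul, one_mul]
    · simp
  simp only [h2]
  rw [ENNReal.tsum_mul_left, tsum_nbr]

lemma quarter_four : (2⁻¹ * 2⁻¹ * (1 + 1 + 1 + 1) : ℝ≥0∞) = 1 := by
  have h : (2⁻¹ : ℝ≥0∞) * 2 = 1 := ENNReal.inv_mul_cancel (by simp) (by simp)
  calc (2⁻¹ * 2⁻¹ * (1 + 1 + 1 + 1) : ℝ≥0∞) = (2⁻¹ * 2) * (2⁻¹ * 2) := by ring
    _ = 1 := by rw [h, one_mul]

lemma kern_sum (x : Vtx) : ∑' y, kern x y = 1 := by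
  have := tsum_kern x (fun _ => 1)
  simp only [mul_one] at this
  rw [this, quarter_four]

lemma pw_kern (k : ℕ) : ∀ x y : Vtx,
    pw kern (k + 1) x y = b (k + 1) x.1 y.1 * ((lab y.1 : ℕ) : ℝ≥0∞)⁻¹ := by
  induction k with
  | zero =>
    intro x y
    rw [zero_add, pw_one, b_succ]
    simp only [b_zero]
    unfold kern
    have h := nbr_iff x.1 y.1
    by_cases hn : nbr x.1 y.1
    · rw [if_pos hn]
      have hm := h.mp hn
      congr 1
      simp only [mem_insert, mem_singleton] at hm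
      rcases hm with hm | hm | hm | hm
      · rw [hm, if_pos rfl, if_neg (by rw [Prod.ext_iff]; omega),
          if_neg (by rw [Prod.ext_iff]; omega), if_neg (by rw [Prod.ext_iff]; omega)]
        simp
      · rw [hm, if_pos rfl, if_neg (by rw [Prod.ext_iff]; omega),
          if_neg (by rw [Prod.ext_iff]; omega), if_neg (by rw [Prod.ext_iff]; omega)]
        simp
      · rw [hm, if_pos rfl, if_neg (by rw [Prod.ext_iff]; omega),
          if_neg (by rw [Prod.ext_iff]; omega), if_neg (by rw [Prod.ext_iff]; omega)]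
        simp
      · rw [hm, if_pos rfl, if_neg (by rw [Prod.ext_iff]; omega),
          if_neg (by rw [Prod.ext_iff]; omega), if_neg (by rw [Prod.ext_iff]; omega)]
        simp
    · rw [if_neg hn]
      have hm : ¬ (y.1 = (x.1.1 + 1, x.1.2) ∨ y.1 = (x.1.1 - 1, x.1.2) ∨
          y.1 = (x.1.1, x.1.2 + 1) ∨ y.1 = (x.1.1, x.1.2 - 1)) := by
        intro h'
        apply hn
        rw [h]
        simpa only [mem_insert, mem_singleton] using h'
      push Not at hm
      obtain ⟨h1, h2, h3, h4⟩ := hm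
      rw [if_neg (Ne.symm h1), if_neg (Ne.symm h2), if_neg (Ne.symm h3), if_neg (Ne.symm h4)]
      simp
  | succ k ih =>
    intro x y
    rw [pw_succ]
    simp only [ih]
    have := tsum_kern x (fun h => b (k + 1) h y.1 * ((lab y.1 : ℕ) : ℝ≥0∞)⁻¹)
    rw [this, b_succ (k + 1)]
    ring

lemma tsum_lab_inv : ∑' h : ℤ × ℤ, ((lab h : ℕ) : ℝ≥0∞)⁻¹ ≠ ∞ := by
  have h1 : ∀ h : ℤ × ℤ, ((lab h : ℕ) : ℝ≥0∞)⁻¹ =
      (2⁻¹ : ℝ≥0∞) ^ h.1.natAbs * (2⁻¹ : ℝ≥0∞) ^ h.2.natAbs := by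
    intro h
    unfold lab
    rw [← pow_add]
    push_cast
    rw [ENNReal.inv_pow]
  simp only [h1]
  rw [ENNReal.tsum_prod (f := fun i j : ℤ => (2⁻¹ : ℝ≥0∞) ^ i.natAbs * (2⁻¹ : ℝ≥0∞) ^ j.natAbs)]
  simp only [ENNReal.tsum_mul_left, ENNReal.tsum_mul_right]
  have h2 : ∑' i : ℤ, (2⁻¹ : ℝ≥0∞) ^ i.natAbs ≠ ∞ := by
    have h3 : ∀ i : ℤ, (2⁻¹ : ℝ≥0∞) ^ i.natAbs = ENNReal.ofReal ((2⁻¹ : ℝ) ^ i.natAbs) := by
      intro i
      rw [ENNReal.ofReal_pow (by norm_num), ENNReal.ofReal_inv_of_pos (by norm_num)]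
      norm_num
    simp only [h3]
    apply Summable.tsum_ofReal_ne_top
    have hg : Summable (fun n : ℕ => (2⁻¹ : ℝ) ^ n) :=
      summable_geometric_of_lt_one (by norm_num) (by norm_num)
    apply Summable.of_nat_of_neg
    · simpa using hg
    · simpa using hg
  exact ENNReal.mul_ne_top h2 h2

lemma collisions_le (x x' : Vtx) : collisions kern x x' ≤
    (∑' k : ℕ, (((k + 2 : ℕ) : ℝ≥0∞)⁻¹) ^ 2) * ∑' h : ℤ × ℤ, ((lab h : ℕ) : ℝ≥0∞)⁻¹ := by
  unfold collisions
  rw [← ENNReal.tsum_mul_right]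
  apply ENNReal.tsum_le_tsum
  intro k
  have h1 : ∀ y : Vtx, pw kern (k + 1) x y * pw kern (k + 1) x' y =
      (fun h => b (k + 1) x.1 h * b (k + 1) x'.1 h * (((lab h : ℕ) : ℝ≥0∞)⁻¹ ^ 2)) y.1 := by
    intro y
    rw [pw_kern, pw_kern]
    ring
  simp only [h1]
  rw [tsum_site (fun h => b (k + 1) x.1 h * b (k + 1) x'.1 h * (((lab h : ℕ) : ℝ≥0∞)⁻¹ ^ 2)),
    ← ENNReal.tsum_mul_left]
  apply ENNReal.tsum_le_tsum
  intro h
  calc (lab h : ℝ≥0∞) * (b (k + 1) x.1 h * b (k + 1) x'.1 h * (((lab h : ℕ) : ℝ≥0∞)⁻¹ ^ 2))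
      = ((lab h : ℝ≥0∞) * ((lab h : ℕ) : ℝ≥0∞)⁻¹) * (b (k + 1) x.1 h * b (k + 1) x'.1 h) *
          ((lab h : ℕ) : ℝ≥0∞)⁻¹ := by ring
    _ = (b (k + 1) x.1 h * b (k + 1) x'.1 h) * ((lab h : ℕ) : ℝ≥0∞)⁻¹ := by
        rw [lab_inv_mul, one_mul]
    _ ≤ (((k + 2 : ℕ) : ℝ≥0∞)⁻¹) ^ 2 * ((lab h : ℕ) : ℝ≥0∞)⁻¹ := by
        rw [sq]
        gcongr
        · exact b_le (k + 1) _ _
        · exact b_le (k + 1) _ _

lemma tsum_inv_sq : ∑' k : ℕ, (((k + 2 : ℕ) : ℝ≥0∞)⁻¹) ^ 2 ≠ ∞ := by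
  have h3 : ∀ k : ℕ, (((k + 2 : ℕ) : ℝ≥0∞)⁻¹) ^ 2 =
      ENNReal.ofReal (1 / ((k + 2 : ℕ) : ℝ) ^ 2) := by
    intro k
    rw [one_div, ← inv_pow, ENNReal.ofReal_pow (by positivity),
      ENNReal.ofReal_inv_of_pos (by positivity), ENNReal.ofReal_natCast]
  simp only [h3]
  apply Summable.tsum_ofReal_ne_top
  have := Real.summable_one_div_nat_pow.mpr (one_lt_two)
  exact (summable_nat_add_iff (f := fun n : ℕ => 1 / (n : ℝ) ^ 2) 2).mpr this

lemma kern_ne_zero {x y : Vtx} : kern x y ≠ 0 ↔ nbr x.1 y.1 := by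
  unfold kern
  split_ifs with h
  · simp [h]
  · simp [h]

/-- Any two vertices whose sites are different are connected by possible steps. -/
lemma reach (n : ℕ) : ∀ x y : Vtx,
    (x.1.1 - y.1.1).natAbs + (x.1.2 - y.1.2).natAbs = n + 1 →
    Relation.ReflTransGen (fun a b => kern a b ≠ 0) x y := by
  induction n with
  | zero =>
    intro x y h
    exact Relation.ReflTransGen.single (kern_ne_zero.mpr h)
  | succ n ih =>
    intro x y h
    have hz : ∃ z : ℤ × ℤ, nbr x.1 z ∧ (z.1 - y.1.1).natAbs + (z.2 - y.1.2).natAbs = n + 1 := by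
      by_cases h1 : x.1.1 < y.1.1
      · refine ⟨(x.1.1 + 1, x.1.2), ?_, ?_⟩
        · unfold nbr; simp
        · simp only; omega
      · by_cases h2 : y.1.1 < x.1.1
        · refine ⟨(x.1.1 - 1, x.1.2), ?_, ?_⟩
          · unfold nbr; simp
          · simp only; omega
        · by_cases h3 : x.1.2 < y.1.2
          · refine ⟨(x.1.1, x.1.2 + 1), ?_, ?_⟩
            · unfold nbr; simp
            · simp only; omega
          · refine ⟨(x.1.1, x.1.2 - 1), ?_, ?_⟩
            · unfold nbr; simp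
            · simp only; omega
    obtain ⟨z, hz1, hz2⟩ := hz
    have hz3 : kern x (⟨z, ⟨0, lab_pos z⟩⟩ : Vtx) ≠ 0 := kern_ne_zero.mpr hz1
    exact Relation.ReflTransGen.head hz3 (ih ⟨z, ⟨0, lab_pos z⟩⟩ y hz2)

lemma irreducible (x y : Vtx) : Relation.ReflTransGen (fun a b => kern a b ≠ 0) x y := by
  by_cases h : (x.1.1 - y.1.1).natAbs + (x.1.2 - y.1.2).natAbs = 0
  · let z : Vtx := ⟨(x.1.1 + 1, x.1.2), ⟨0, lab_pos _⟩⟩
    have h1 : nbr x.1 z.1 := by unfold nbr; simp [z]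
    have h2 : nbr z.1 y.1 := by unfold nbr; simp only [z]; omega
    exact Relation.ReflTransGen.head (kern_ne_zero.mpr h1)
      (Relation.ReflTransGen.single (kern_ne_zero.mpr h2))
  · obtain ⟨n, hn⟩ := Nat.exists_eq_succ_of_ne_zero h
    exact reach n x y hn

lemma isChain : IsNearestNeighbourChain graph kern where
  sum_one := kern_sum
  finite_steps := by
    intro x
    have h1 : {y | kern x y ≠ 0} ⊆ ⋃ k ∈ ({(x.1.1 + 1, x.1.2), (x.1.1 - 1, x.1.2),
        (x.1.1, x.1.2 + 1), (x.1.1, x.1.2 - 1)} : Finset (ℤ × ℤ)),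
        Set.range (fun l : Fin (lab k) => (⟨k, l⟩ : Vtx)) := by
      rintro ⟨k, l⟩ hy
      simp only [Set.mem_iUnion]
      exact ⟨k, (nbr_iff _ _).mp (kern_ne_zero.mp hy), l, rfl⟩
    apply Set.Finite.subset _ h1
    apply Set.Finite.biUnion (Finset.finite_toSet _)
    intro k _
    exact Set.finite_range _
  nearest := fun x y h => kern_ne_zero.mp h
  irreducible := irreducible

lemma connected : graph.Connected := by
  haveI : Nonempty Vtx := ⟨⟨(0, 0), ⟨0, lab_pos _⟩⟩⟩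
  refine ⟨fun x y => ?_⟩
  have h := irreducible x y
  induction h with
  | refl => exact SimpleGraph.Reachable.refl _
  | tail _ h ih => exact ih.trans (SimpleGraph.Adj.reachable (kern_ne_zero.mp h))

lemma reversible : Reversible kern := by
  refine ⟨fun x => ((lab x.1 : ℕ) : ℝ≥0∞)⁻¹, fun x => ⟨by simp, ?_⟩, fun x y => ?_⟩
  · rw [Ne, ENNReal.inv_eq_top]
    exact_mod_cast (lab_pos x.1).ne'
  · unfold kern
    by_cases h : nbr x.1 y.1
    · rw [if_pos h, if_pos (nbr_symm h)]; ring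
    · rw [if_neg h, if_neg (fun h' => h (nbr_symm h'))]; simp

lemma recurrent : Recurrent kern := by
  intro x
  apply return_of_green kern (fun x => (kern_sum x).le)
  have h1 : ∑' k, b k x.1 x.1 = ∞ := tsum_b_self x.1
  have h2 : ∑' k, b (k + 1) x.1 x.1 = ∞ := by
    have := tsum_eq_zero_add' (f := fun k => b k x.1 x.1) ENNReal.summable
    rw [h1] at this
    by_contra hne
    have h3 : b 0 x.1 x.1 ≠ ∞ := by
      rw [b_zero]; simp
    exact (ENNReal.add_ne_top.mpr ⟨h3, hne⟩) this.symm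
  have h3 : ∑' k, pw kern (k + 1) x x = ∞ := by
    simp only [pw_kern]
    rw [ENNReal.tsum_mul_right, h2]
    apply ENNReal.top_mul
    simp
  apply top_le_iff.mp
  rw [← h3]
  exact ENNReal.tsum_comp_le_tsum_of_injective (Nat.succ_injective) _

instance : Infinite Vtx := by
  apply Infinite.of_injective (fun n : ℕ => (⟨((n : ℤ), 0), ⟨0, lab_pos _⟩⟩ : Vtx))
  intro n m h
  simp only [Sigma.mk.injEq, Prod.mk.injEq, Nat.cast_inj] at h
  exact h.1.1

end example_chain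

/-- I.i.d. standard Gaussian environments exist and satisfy all the assumptions. -/
lemma exists_environment (V : Type) :
    ∃ (Ω : Type) (_ : MeasurableSpace Ω) (Q : Measure Ω) (env : ℕ × V → Ω → ℝ),
      IsEnvironment Q env := by
  obtain ⟨Ω, mΩ, Q, env, h1, h2, h3, h4⟩ := exists_iid (ℕ × V) (gaussianReal 0 1)
  have hident : ∀ p, IdentDistrib (env p) id Q (gaussianReal 0 1) := fun p =>
    ⟨(h1 p).aemeasurable, aemeasurable_id, by rw [(h2 p).map_eq, Measure.map_id]⟩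
  refine ⟨Ω, mΩ, Q, env, h4, h1, h3, fun p p' => (hident p).trans (hident p').symm, ?_, ?_, ?_, ?_,
    ?_⟩
  · intro p
    exact (hident p).integrable_iff.mpr ((memLp_id_gaussianReal 1).integrable le_rfl)
  · intro p
    rw [(hident p).integral_eq]
    simpa using (integral_id_gaussianReal (μ := 0) (v := 1))
  · intro p
    have h5 := (hident p).comp (u := fun z : ℝ => z ^ 2) (by fun_prop)
    refine h5.integrable_iff.mpr ?_
    exact (memLp_id_gaussianReal 2).integrable_sq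
  · intro p
    have h5 := (hident p).comp (u := fun z : ℝ => z ^ 2) (by fun_prop)
    have h6 := h5.integral_eq
    have h7 : Var[id; gaussianReal 0 1] = 1 := by
      rw [variance_id_gaussianReal]; rfl
    rw [variance_eq_sub (memLp_id_gaussianReal 2)] at h7
    have h8 : ∫ x, id x ∂(gaussianReal 0 1) = 0 := by
      simpa using (integral_id_gaussianReal (μ := 0) (v := 1))
    rw [h8] at h7
    calc ∫ ω, (env p ω) ^ 2 ∂Q = ∫ x, (id x : ℝ) ^ 2 ∂(gaussianReal 0 1) := h6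
      _ = 1 := by simpa using h7
  · intro β hβ p
    have h5 := (hident p).comp (u := fun z : ℝ => Real.exp (β * z)) (by fun_prop)
    exact h5.integrable_iff.mpr (integrable_exp_mul_gaussianReal β)

/-- **Main result.**  There is a connected graph on a countably infinite vertex set and an
irreducible, reversible, recurrent nearest-neighbour chain with finitely many possible steps from
each vertex, such that for every environment satisfying the assumptions (and such environments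
exist) there is `β₀ > 0` with `E[W_n(x, β)²] ≤ 2` for all `0 ≤ β ≤ β₀`, all `n` and all `x`.  Hence
`β₂ ≥ β₀ > 0`. -/
theorem result : ∃ (V : Type) (G : SimpleGraph V) (P : V → V → ℝ≥0∞),
    Countable V ∧ Infinite V ∧ G.Connected ∧ IsNearestNeighbourChain G P ∧ Reversible P ∧
    Recurrent P ∧
    (∃ (Ω : Type) (_ : MeasurableSpace Ω) (Q : Measure Ω) (env : ℕ × V → Ω → ℝ),
      IsEnvironment Q env) ∧
    ∀ (Ω : Type) [MeasurableSpace Ω] (Q : Measure Ω) (env : ℕ × V → Ω → ℝ),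
      IsEnvironment Q env →
      ∃ β₀ : ℝ, 0 < β₀ ∧ ∀ β : ℝ, 0 ≤ β → β ≤ β₀ → ∀ (n : ℕ) (x : V),
        ∫⁻ ω, (normalized P Q env β n x ω) ^ 2 ∂Q ≤ 2 := by
  refine ⟨Vtx, graph, kern, inferInstance, inferInstance, connected, isChain, reversible, recurrent,
    exists_environment Vtx, ?_⟩
  intro Ω _ Q env h
  exact second_moment_bounded kern (fun x => (kern_sum x).le)
    (ENNReal.mul_ne_top tsum_inv_sq tsum_lab_inv) collisions_le h

end Pool.Agent.Results.MP_6abe48_pr.ReversibleRecurrent
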